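import Pool.Agent.X159.TZ.Glob

set_option autoImplicit false

/-! # The weak monodromy conjecture for topological zeta functions: reduction to cubics

We prove that the (weak) monodromy conjecture for the global topological zeta functions of ALL
non-constant polynomials, of all degrees and in all numbers of variables, is EQUIVALENT to the same
statement for the cubic polynomials `x_0 + ∑_j t_j q_j(x)`, `q_j` of degree at most two, that is, for
coordinate functions restricted to intersections of quadrics; all polynomials may have coefficients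
in a given subfield `k` of `ℂ`. By the theorem of Malgrange and Kashiwara the eigenvalues of the
monodromy of `f` are the numbers `exp(2 π i r)`, `r` a root of the Bernstein-Sato polynomial of `f`.

Method. Every polynomial `f` becomes such a cubic by adding products `y_i z_i` of new variables and an
automorphism of the polynomial ring. The topological zeta function of `F = f + y_1 z_1 + ⋯ + y_κ z_κ` is
`Z_F(s) = (κ + s (s + κ + 1) Z_f(s + κ)) / ((s + 1) (s + κ))` (`stpK 1 κ Z`), proved from the classes of
the sets of jets in the Grothendieck ring, without resolution of singularities; and a functional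
equation of `f` with `b(s) = (s + 1) c(s)` gives one of `F` with `(s + 1) c(s + κ)`.

As in the starting files the topological zeta function is defined, as by Denef and Loeser, from
the motivic zeta function `Z_mot(T) = ∑_d [X_d] 𝕃 ^ (-n d) T ^ d`, `X_d` the `d`-jets on which `f` has the
order `d` (`zetaM f Set.univ {c | c ≠ 0}`): `Z_top(s) = χ(Z_mot(𝕃 ^ (-s)))` for `s = 1, 2, 3, …`
(`IsTopZeta E ε`), `E` a homomorphism from the Grothendieck ring localised at `𝕃` to a domain with
`E(𝕃) ≠ 1`, such as the Hodge-Deligne polynomial, and `ε ∘ E` the Euler characteristic. -/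

namespace Pool.Agent.Results.MP_a2a574_ag.CubicsWeak

open MvPolynomial Pool.Agent.W428.MOT Pool.Agent.TH192.MU Pool.Agent.X159.TZ
open Pool.Agent.TH192.MT (zetaM)
open Pool.Agent.H628R4.TP (IsBFunction)
open Pool.Agent.X271.RD (cubic stab)

/-- The weak monodromy conjecture for `f`: for every pole `s₀` of the topological zeta function `Z` of `f`
and every `b` with `b(s) f ^ s = P(s) f ^ (s + 1)`, in particular the Bernstein-Sato polynomial of `f`,
`exp(2 π i s₀) = exp(2 π i r)` for a root `r` of `b`. -/
def Weak {R : Type} [CommRing R] (E : MK ℂ →+* R) (ε : R →+* ℂ) {n : ℕ}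
    (f : MvPolynomial (Fin n) ℂ) : Prop :=
  ∀ Z : RatFunc ℂ, IsTopZeta E ε (zetaM f Set.univ {c | c ≠ 0}) Z →
    ∀ b : Polynomial ℂ, IsBFunction f b → ∀ s₀ : ℂ, Z.denom.eval s₀ = 0 →
      ∃ r : ℂ, b.eval r = 0 ∧
        Complex.exp (2 * Real.pi * Complex.I * s₀) = Complex.exp (2 * Real.pi * Complex.I * r)

/-- **Reduction of the weak monodromy conjecture for topological zeta functions to cubics.**

(1) The weak conjecture holds for all non-constant polynomials over the subfield `k` of `ℂ` if and only
if it holds for all cubics `x_0 + ∑_j t_j q_j(x)` over `k` with `q_j` of degree at most two.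

(2) If it holds for the image `F` of `f + ∑_{i < κ} y_i z_i` under some automorphism of the polynomial
ring, then it holds for the non-constant polynomial `f`, for every `κ`.

(3) If `Z` is the topological zeta function of `f`, then the one of `F` is
`(κ + s (s + κ + 1) Z(s + κ)) / ((s + 1) (s + κ))`. -/
theorem result (R : Type) [CommRing R] [IsDomain R] (E : MK ℂ →+* R) (ε : R →+* ℂ)
    (hε : ε (E ((Lu ℂ : (MK ℂ)ˣ) : MK ℂ)) = 1) (hE : E ((Lu ℂ : (MK ℂ)ˣ) : MK ℂ) ≠ 1) :
    (∀ (k : Type) [Field k] [Algebra k ℂ],
      (∀ (n : ℕ) (f : MvPolynomial (Fin n) k), f.totalDegree ≠ 0 →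
        Weak E ε (map (algebraMap k ℂ) f)) ↔
      ∀ (n l : ℕ) (q : Fin l → MvPolynomial (Fin (n + 1)) k), (∀ j, (q j).totalDegree ≤ 2) →
        Weak E ε (map (algebraMap k ℂ) (cubic q))) ∧
    ∀ (n : ℕ) (f : MvPolynomial (Fin n) ℂ), f.totalDegree ≠ 0 → ∀ κ : ℕ,
      ∀ Φ : MvPolynomial (Fin (n + (κ + κ))) ℂ ≃ₐ[ℂ] MvPolynomial (Fin (n + (κ + κ))) ℂ,
        (Weak E ε (Φ (stab f κ)) → Weak E ε f) ∧
        ∀ Z : RatFunc ℂ, IsTopZeta E ε (zetaM f Set.univ {c | c ≠ 0}) Z →
          IsTopZeta E ε (zetaM (Φ (stab f κ)) Set.univ {c | c ≠ 0}) (stpK 1 κ Z) := by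
  have hw : ∀ {n : ℕ} (f : MvPolynomial (Fin n) ℂ), Weak E ε f ↔ TopP E ε PWeak f :=
    fun f => Iff.rfl
  refine ⟨fun k _ _ => ?_, fun n f hf κ Φ => ⟨fun h => ?_, fun Z hZ => top_stab hε hE hZ κ Φ⟩⟩
  · exact cubicsT hε hE (fun κ _ => desc_weak κ) k
  · exact transferT hε hE (desc_weak κ) hf Φ h

end Pool.Agent.Results.MP_a2a574_ag.CubicsWeak
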