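import Pool.Agent.X271.TcFin

/-!
# Closure properties of the monodromy conjecture: Thom-Sebastiani sums, restrictions to graphs

The monodromy conjecture for the global topological zeta functions says: if `s₀` is a pole of `Z_F`, then
`s₀ - t` is a root of the Bernstein-Sato polynomial `b_F` for some `t ∈ ℕ` (weak form; by the theorem
of Malgrange and Kashiwara, this is equivalent to `exp(2 π i s₀)` being an eigenvalue of the
monodromy, if we allow `t ∈ ℤ`), or even `s₀` is a root of `b_F` (strong form).

Let `𝓘` be a class of ideals of polynomial rings, and `𝓗` a class of polynomials, for which the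
conjecture holds, for the polynomials in `𝓗` in the reduced form: for the poles of `(s + 1) Z_F` and
the roots of `b_F(s) / (s + 1)`. We prove that then this is also true for the least classes `𝓘' ⊇ 𝓘`
and `𝓗' ⊇ 𝓗`, `𝓗' ⊆ 𝓘'` (as principal ideals), with the following properties.

* `𝓘'` is closed under sums and products in disjoint sets of variables, and contains with a principal
  ideal `(f)` all its powers `(f ^ a)`; `𝓗'` is closed under products in disjoint sets of variables.
* For `(f_j)` in `𝓘'` and `g` in `𝓗'`, the polynomials `∑ y_j f_j(x)` and `∑ y_j f_j(x) + g(z)`, with new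
  variables `y_j`, are in `𝓗'`.
* New: if `∑ y_j f_j(x)` is in `𝓗'` then `(f_j)` is in `𝓘'`.
* New: if a polynomial which is obtained by an automorphism of the polynomial ring from
  `f(x) + y_1 z_1 + ⋯ + y_k z_k`, `k ≥ 0`, `f` not constant, is in `𝓗'`, then `f` is in `𝓗'`.

The last property contains: `𝓗'` is closed under automorphisms of the polynomial ring; and if
`Φ(x, z) + ∑ y_i l_i(x, z)` is in `𝓗'`, where `l_i = c_i z_i - p_i(x, z_1, …, z_(i-1))`, then so is the
composition `f`, the restriction of `Φ` to the graph `l_1 = ⋯ = l_k = 0`. With the third one: `𝓘'` is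
closed under automorphisms, changes of the generators, and restrictions to graphs.

The unconditional results are obtained for the classes `𝓘` and `𝓗` for which the conjecture is known
in the starting library: all ideals of `ℂ[x, y]`, the ideals generated by forms of the same degree
without a common zero, the ideals whose numerical data come from Rees divisors, ideals with very
general coefficients at the vertices, all plane curves, polynomials with very general coefficients at
the vertices of the Newton polytope (strong form), and nondegenerate polynomials (weak form). For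
example, the sums of
compositions `f(x) = Φ(x, p_1(x), …, p_k(x))` (neither reduced nor nondegenerate in general) with
very general coefficients with arbitrary `∑ y_j f_j(u, v)`, or with plane curves etc., and everything
that is obtained if such constructions are repeated.
-/

set_option autoImplicit false

namespace Pool.Agent.Results.MP_a2a574_ag.ThomSebastianiCompositions

open MvPolynomial Pool.Agent.W574.SM Pool.Agent.W574.RO Pool.Agent.H628R4.TP Pool.Agent.TH192.DT
  Pool.Agent.Y229 Pool.Agent.Y228.AT Pool.Agent.Y230.TH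
open Pool.Agent.W425.SM (SmoothFan Principal)
open Pool.Agent.W425.ND (Nondeg)
open Pool.Agent.W422.GC (topZetaG)
open Pool.Agent.X271.TwD (unstab exps InHullT tup)
open Pool.Agent.X271.TcD (TC Mon Sh)

/-- **Closure properties of the monodromy conjecture.** `TC At HAt c A Z`: the classes of ideals
(`c = false`) and of hypersurfaces (`c = true`) `A`, with their global topological zeta functions
`Z`, which are obtained from the ideals in `At` and the hypersurfaces in `HAt` by the operations in
the introduction. `Mon w c A Z`: the strong (`w = false`) or weak (`w = true`) monodromy conjecture for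
`A` and `Z`, for hypersurfaces (`c = true`) including its reduced form.

(1) If `Mon w false` holds for all members of `At` and `Mon w true` for all members of `HAt`, then
`Mon w c A Z` for all `A`, `Z` with `TC At HAt c A Z`.

(2) Weak form. Let `F` be a polynomial with `TC WeakAt WeakHyp false (F) Z`, and let `b` satisfy a
functional equation `b(s) F ^ s = P(s) F ^ (s + 1)`. Then for every pole `s₀` of `Z` there is `i ∈ ℕ` with
`b(s₀ - i) = 0`.

(3) Strong form. Let `F` be a polynomial with `TC AllGlobal StrongHyp false (F) Z`, and let `b` satisfy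
a functional equation of `F`. Then `b(s₀) = 0` for every pole `s₀` of `Z`. The same is true for the ideals
`A` in the class and the functional equations of ideals.

(4) Products of powers of forms. Let the `f_{t,j}` be polynomials in finitely many variables `x_i`, let
`F_t = ∑_j y_{t,j} f_{t,j}(x)` and `F = ∏ t, F_t ^ a t` (`powProd`), `a t ≥ 1`, and let the ideal
`∏ t, (f_{t,j})_j ^ a t`, which is generated by the family `powFam a f`, satisfy
`TC WeakAt WeakHyp false (powFam a f) Z'`. The global topological zeta function of `F` is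
`Z' ∏ t, 1 / (1 + a t s)`. Let `b` satisfy a functional equation of `F`. Then for every pole `s₀` of
`Z' ∏ t, 1 / (1 + a t s)` there is `i ∈ ℕ` with `b(s₀ - i) = 0`; and `b(s₀) = 0` if
`TC AllGlobal StrongHyp false (powFam a f) Z'`.

(5) Compositions with very general coefficients are in the class. Let exponents `m_j` of monomials in
`x_1, …, x_N, z_1, …, z_k` be given in groups `π j ∈ {0, …, k}` (distinct in each group, nonzero in
the group `0`), let `H_i` be polynomials with coefficients in a field `F ⊆ ℂ` with exponents in the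
convex hull of the `m_j` with `π j = i` (`InHullT`), and `a ∈ ℂ ^ r` algebraically independent over
`F`. Let `T_i = tup π m a H i = ∑_{π j = i} a_j X ^ (m_j) + H_i`, `Φ = T_0`, `l_i = T_i`, `i ≥ 1`. Let `f` be not
constant, and `f(x) = Φ(x, p_1(x) / c_1, …, p_k(x) / c_k)` where `l_i = c_i z_i - p_i(x)`, `c_i ≠ 0`, or,
more generally, `Φ = f + ∑ q_i l_i`, where `θ(x_i) = x_i`, `θ(z_i) = l_i` for an automorphism `θ` of `ℂ[x, z]`
(iterated compositions). Then `f` is in the class of the hypersurfaces in (3), with the zeta function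
`Z_f` given by that of `G = Φ + ∑ y_i l_i` on a toric resolution, by the formula
`1 - Z_f(s) = (1 - Z_G(s - k)) s (s - k + 1) / ((s - k) (s + 1))` (`unstab`; if this function has no pole at
`k ≥ 0`, which is true because all poles of topological zeta functions are negative).

(6) Nondegenerate compositions are in the class. As (5), with `H = 0` and all `a` such that
`G = Φ + ∑ y_i l_i` is nondegenerate, for the weak form and the class in (2), if `Z_G` has at most a
simple pole at `-1` and no pole at the natural numbers (which is always true for `k ≥ 1`, by the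
formula and because topological zeta functions have negative poles). -/
theorem result :
    (∀ (w : Bool) (At HAt : Fam → RatFunc ℂ → Prop), (∀ A Z, At A Z → Mon w false A Z) →
      (∀ A Z, HAt A Z → Mon w true A Z) →
      ∀ (c : Bool) (A : Fam) (Z : RatFunc ℂ), TC At HAt c A Z → Mon w c A Z) ∧
    (∀ (σ : Type) (F : MvPolynomial σ ℂ) (Z : RatFunc ℂ),
      TC WeakAt WeakHyp false ⟨σ, Fin 1, fun _ => F⟩ Z →
      ∀ b : Polynomial ℂ, IsBFunction F b →
      ∀ s₀ : ℂ, Z.denom.eval s₀ = 0 → ∃ i : ℕ, b.eval (s₀ - i) = 0) ∧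
    ((∀ (σ : Type) (F : MvPolynomial σ ℂ) (Z : RatFunc ℂ),
      TC AllGlobal StrongHyp false ⟨σ, Fin 1, fun _ => F⟩ Z →
      ∀ b : Polynomial ℂ, IsBFunction F b →
      ∀ s₀ : ℂ, Z.denom.eval s₀ = 0 → b.eval s₀ = 0) ∧
    (∀ (A : Fam) (Z : RatFunc ℂ), TC AllGlobal StrongHyp false A Z →
      ∀ b : Polynomial ℂ, IsFunctionalEq A.f b →
      ∀ s₀ : ℂ, Z.denom.eval s₀ = 0 → b.eval s₀ = 0)) ∧
    (∀ (σ T : Type) [Finite σ] [Fintype T] [DecidableEq T] [Nonempty T] (κ : T → Type)
      [∀ t, Fintype (κ t)] (a : T → ℕ), (∀ t, 1 ≤ a t) →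
      ∀ (f : (t : T) → κ t → MvPolynomial σ ℂ) (Z' : RatFunc ℂ),
      ∀ b : Polynomial ℂ, IsBFunction (powProd a f) b →
      ∀ s₀ : ℂ, (Z' * ∏ t, fac (a t) 1).denom.eval s₀ = 0 →
      (TC WeakAt WeakHyp false (powFam a f) Z' → ∃ i : ℕ, b.eval (s₀ - i) = 0) ∧
      (TC AllGlobal StrongHyp false (powFam a f) Z' → b.eval s₀ = 0)) ∧
    (∀ {N k r : ℕ}, 1 ≤ r → ∀ (F : Subfield ℂ) (π : Fin r → Fin (k + 1))
      (m : Fin r → Fin (N + k) → ℕ), (∀ j j', π j = π j' → m j = m j' → j = j') →
      (∀ j, π j = 0 → m j ≠ 0) → ∀ H : Fin (k + 1) → MvPolynomial (Fin (N + k)) F,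
      (∀ i, ∀ w ∈ (H i).support, InHullT π m i w) → ∀ a : Fin r → ℂ, AlgebraicIndependent F a →
      ∀ R : SmoothFan (N + (k + k)), Principal (exps π m) R →
      ∀ f : MvPolynomial (Fin N) ℂ, f.totalDegree ≠ 0 →
      ∀ T : Fin (k + 1) → MvPolynomial (Fin (N + k)) ℂ,
        T = tup π m a (fun i => MvPolynomial.map (algebraMap F ℂ) (H i)) →
      ((∃ (c : Fin k → ℂ) (p : Fin k → MvPolynomial (Fin N) ℂ), (∀ i, c i ≠ 0) ∧
        (∀ i : Fin k, T i.succ = C (c i) * X (Fin.natAdd N i) - rename (Fin.castAdd k) (p i)) ∧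
        f = aeval (Fin.append X fun i => C (c i)⁻¹ * p i) (T 0)) ∨
      (∃ (θ : MvPolynomial (Fin (N + k)) ℂ ≃ₐ[ℂ] MvPolynomial (Fin (N + k)) ℂ)
        (q : Fin k → MvPolynomial (Fin (N + k)) ℂ),
        (∀ i, θ (X (Fin.castAdd k i)) = X (Fin.castAdd k i)) ∧
        (∀ i : Fin k, θ (X (Fin.natAdd N i)) = T i.succ) ∧
        T 0 = rename (Fin.castAdd k) f + ∑ i, q i * T i.succ)) →
      (unstab k 1 (topZetaG (exps π m) R)).denom.eval (k : ℂ) ≠ 0 →
      TC AllGlobal StrongHyp true ⟨Fin N, Fin 1, fun _ => f⟩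
        (unstab k 1 (topZetaG (exps π m) R))) ∧
    (∀ {N k r : ℕ}, 1 ≤ r → ∀ (π : Fin r → Fin (k + 1))
      (m : Fin r → Fin (N + k) → ℕ), (∀ j j', π j = π j' → m j = m j' → j = j') →
      (∀ j, π j = 0 → m j ≠ 0) → ∀ a : Fin r → ℂ, Nondeg (exps π m) a →
      ∀ R : SmoothFan (N + (k + k)), Principal (exps π m) R →
      ∀ f : MvPolynomial (Fin N) ℂ, f.totalDegree ≠ 0 →
      ∀ T : Fin (k + 1) → MvPolynomial (Fin (N + k)) ℂ, T = tup π m a (fun _ => 0) →
      ((∃ (c : Fin k → ℂ) (p : Fin k → MvPolynomial (Fin N) ℂ), (∀ i, c i ≠ 0) ∧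
        (∀ i : Fin k, T i.succ = C (c i) * X (Fin.natAdd N i) - rename (Fin.castAdd k) (p i)) ∧
        f = aeval (Fin.append X fun i => C (c i)⁻¹ * p i) (T 0)) ∨
      (∃ (θ : MvPolynomial (Fin (N + k)) ℂ ≃ₐ[ℂ] MvPolynomial (Fin (N + k)) ℂ)
        (q : Fin k → MvPolynomial (Fin (N + k)) ℂ),
        (∀ i, θ (X (Fin.castAdd k i)) = X (Fin.castAdd k i)) ∧
        (∀ i : Fin k, θ (X (Fin.natAdd N i)) = T i.succ) ∧
        T 0 = rename (Fin.castAdd k) f + ∑ i, q i * T i.succ)) →
      (∀ i : ℕ, ((RatFunc.X + 1) * topZetaG (exps π m) R).denom.eval ((i : ℂ) - 1) ≠ 0) →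
      (unstab k 1 (topZetaG (exps π m) R)).denom.eval (k : ℂ) ≠ 0 →
      TC WeakAt WeakHyp true ⟨Fin N, Fin 1, fun _ => f⟩
        (unstab k 1 (topZetaG (exps π m) R))) := by
  classical
  have hw : ∀ (c : Bool) (A : Fam) (Z : RatFunc ℂ), TC WeakAt WeakHyp c A Z → Mon true c A Z :=
    Pool.Agent.X271.TcT.mon_closure true _ _ Pool.Agent.X271.TcT.weakAt_mon
      Pool.Agent.X271.TcT.weakHyp_mon
  have hs : ∀ (c : Bool) (A : Fam) (Z : RatFunc ℂ), TC AllGlobal StrongHyp c A Z →
      Mon false c A Z :=
    Pool.Agent.X271.TcT.mon_closure false _ _ (Pool.Agent.X271.TcT.allGlobal_mon false)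
      (Pool.Agent.X271.TcT.strongHyp_mon false)
  have ht : ∀ t : ℂ, Sh false t → t = 0 := by
    rintro t (h | ⟨h, -⟩)
    · exact h
    · exact absurd h (by simp)
  have ht' : ∀ t : ℂ, Sh true t → ∃ i : ℕ, t = i := by
    rintro t (h | ⟨-, h⟩)
    · exact ⟨0, by rw [h, Nat.cast_zero]⟩
    · exact h
  refine ⟨Pool.Agent.X271.TcT.mon_closure, fun σ F Z h b hb s₀ hs₀ => ?_,
    ⟨fun σ F Z h b hb s₀ hs₀ => ?_, fun A Z h b hb s₀ hs₀ => ?_⟩, ?_, ?_, ?_⟩
  · obtain ⟨t, h1, h2⟩ := Pool.Agent.X271.TcT.hyp_root true false F Z (hw _ _ _ h) b hb s₀ hs₀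
    obtain ⟨i, rfl⟩ := ht' t h1
    exact ⟨i, h2⟩
  · obtain ⟨t, h1, h2⟩ := Pool.Agent.X271.TcT.hyp_root false false F Z (hs _ _ _ h) b hb s₀ hs₀
    rw [ht t h1, sub_zero] at h2
    exact h2
  · obtain ⟨t, h1, h2⟩ := (hs _ _ _ h).pole s₀ hs₀
    have h3 := h2 b hb
    rw [ht t h1, sub_zero] at h3
    exact h3
  · intro σ T _ _ _ _ κ _ a ha f Z' b hb s₀ hs₀
    refine ⟨fun h => ?_, fun h => ?_⟩
    · obtain ⟨t, h1, h2⟩ := Pool.Agent.X271.TcT.mon_pow true a ha f Z' false (hw _ _ _ h) b hb
        s₀ hs₀
      obtain ⟨i, rfl⟩ := ht' t h1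
      exact ⟨i, h2⟩
    · obtain ⟨t, h1, h2⟩ := Pool.Agent.X271.TcT.mon_pow false a ha f Z' false (hs _ _ _ h) b hb
        s₀ hs₀
      rw [ht t h1, sub_zero] at h2
      exact h2
  · intro N k r hr F π m hinj hm H hH a ha R hR f hf T hT h hk
    exact Pool.Agent.X271.TcT.comp_mem hr F π m hinj hm H hH a ha R hR f hf T hT h hk
  · intro N k r hr π m hinj hm a hnd R hR f hf T hT h h1 hk
    exact Pool.Agent.X271.TcT.comp_mem_nd hr π m hinj hm a hnd R hR f hf T hT h h1 hk

end Pool.Agent.Results.MP_a2a574_ag.ThomSebastianiCompositions
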